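import Pool.Agent.Y802.QV.Main

/-!
# Composition factor criterion: flags over the residue field
-/

set_option autoImplicit false
set_option linter.unusedSectionVars false

namespace Pool.Agent.Y802.QV

open Matrix IsLocalRing Pool.Agent.Y802.GC Pool.Agent.W569.FM

theorem mem_smul_top {A : Type} [CommRing A] {n : ℕ} (J : Ideal A) (Y : Matrix (Fin n) (Fin n) A)
    (h : ∀ a b, Y a b ∈ J) : Y ∈ J • (⊤ : Submodule A (Matrix (Fin n) (Fin n) A)) := by
  have h1 : Y = ∑ a, ∑ b, Y a b • (Matrix.single a b (1 : A) : Matrix (Fin n) (Fin n) A) := by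
    conv_lhs => rw [Matrix.matrix_eq_sum_single Y]
    refine Finset.sum_congr rfl fun a _ => Finset.sum_congr rfl fun b _ => ?_
    rw [Matrix.smul_single, smul_eq_mul, mul_one]
  rw [h1]
  exact Submodule.sum_mem _ fun a _ => Submodule.sum_mem _ fun b _ =>
    Submodule.smul_mem_smul (h a b) trivial

section

variable {A : Type} [CommRing A] [IsLocalRing A] {n : ℕ}

/-- the matrices whose columns lie in `U` modulo the maximal ideal -/
noncomputable def FL (U : Submodule (ResidueField A) (Fin n → ResidueField A)) :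
    Submodule A (Matrix (Fin n) (Fin n) A) where
  carrier := {M | ∀ j, (fun i => residue A (M i j)) ∈ U}
  zero_mem' := fun j => by
    have : (fun i => residue A ((0 : Matrix (Fin n) (Fin n) A) i j)) = 0 := by
      funext i
      simp
    rw [this]
    exact U.zero_mem
  add_mem' := fun {a b} ha hb j => by
    have : (fun i => residue A ((a + b) i j)) =
        (fun i => residue A (a i j)) + fun i => residue A (b i j) := by
      funext i
      simp
    rw [this]
    exact U.add_mem (ha j) (hb j)
  smul_mem' := fun c a ha j => by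
    have : (fun i => residue A ((c • a) i j)) = residue A c • fun i => residue A (a i j) := by
      funext i
      simp
    rw [this]
    exact U.smul_mem _ (ha j)

theorem mem_FL {U : Submodule (ResidueField A) (Fin n → ResidueField A)}
    {M : Matrix (Fin n) (Fin n) A} : M ∈ FL U ↔ ∀ j, (fun i => residue A (M i j)) ∈ U := Iff.rfl

theorem col_mul (M N : Matrix (Fin n) (Fin n) A) (j : Fin n) :
    (fun i => residue A ((M * N) i j)) = M.map (residue A) *ᵥ fun i => residue A (N i j) := by
  funext i
  rw [Matrix.mul_apply, map_sum, Matrix.mulVec, dotProduct]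
  simp

theorem FL_top : FL (⊤ : Submodule (ResidueField A) (Fin n → ResidueField A)) = ⊤ := by
  rw [eq_top_iff]
  exact fun M _ j => trivial

theorem FL_bot : FL (⊥ : Submodule (ResidueField A) (Fin n → ResidueField A)) ≤
    maximalIdeal A • ⊤ := by
  intro M hM
  refine mem_smul_top _ _ fun i j => ?_
  have h1 := congrFun ((Submodule.mem_bot _).1 (hM j)) i
  exact (residue_eq_zero_iff _).1 h1

/-- the value of an operator on a column -/
theorem col_sum {G : Type} [Group G] (ρ : G →* GL (Fin n) A) (s : Finset G) (c : G → A)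
    (y : Matrix (Fin n) (Fin n) A) (j : Fin n) :
    (fun i => residue A ((∑ σ ∈ s, c σ • ((ρ σ : Matrix (Fin n) (Fin n) A) * y)) i j)) =
      ∑ σ ∈ s, residue A (c σ) •
        (((ρ σ : Matrix (Fin n) (Fin n) A).map (residue A)) *ᵥ fun i => residue A (y i j)) := by
  funext i
  rw [Matrix.sum_apply, map_sum, Finset.sum_apply]
  refine Finset.sum_congr rfl fun σ _ => ?_
  rw [Matrix.smul_apply, smul_eq_mul, map_mul, Pi.smul_apply, smul_eq_mul, ← col_mul]

/-- lifting of coefficients -/
theorem exists_lift (G : Type) (a : G →₀ ResidueField A) :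
    ∃ b : G →₀ A, b.support = a.support ∧ ∀ σ, residue A (b σ) = a σ := by
  classical
  let l : ResidueField A → A := fun x => if x = 0 then 0 else Function.surjInv residue_surjective x
  have hl : ∀ x, residue A (l x) = x := by
    intro x
    by_cases hx : x = 0
    · have : l x = 0 := if_pos hx
      rw [this, map_zero, hx]
    · have : l x = Function.surjInv residue_surjective x := if_neg hx
      rw [this]
      exact Function.surjInv_eq _ _
  have hl0 : l 0 = 0 := if_pos rfl
  refine ⟨a.mapRange l hl0, ?_, fun σ => ?_⟩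
  · ext σ
    rw [Finsupp.mem_support_iff, Finsupp.mem_support_iff, Finsupp.mapRange_apply, not_iff_not]
    constructor
    · intro h
      rw [← hl (a σ), h, map_zero]
    · intro h
      rw [h, hl0]
  · rw [Finsupp.mapRange_apply, hl]

variable [IsNoetherianRing A] [TopologicalSpace A]
  {G : Type} [Group G] [TopologicalSpace G] [IsTopologicalGroup G] {H : Subgroup G} [hH : H.Normal]

theorem exists_open (hA : IsAdic (maximalIdeal A)) (ρ : G →* GL (Fin n) A)
    (hρ : Continuous ρ) (k : ℕ) : ∃ U : Subgroup H, IsOpen (U : Set H) ∧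
      ∀ g ∈ U, (ρ g : Matrix (Fin n) (Fin n) A) - 1 ∈
        (maximalIdeal A ^ k) • (⊤ : Submodule A (Matrix (Fin n) (Fin n) A)) := by
  let f : H →* GL (Fin n) (A ⧸ maximalIdeal A ^ k) :=
    (Matrix.GeneralLinearGroup.map (Ideal.Quotient.mk (maximalIdeal A ^ k))).comp
      (ρ.comp H.subtype)
  refine ⟨f.ker, ?_, fun g hg => ?_⟩
  · apply Subgroup.isOpen_of_mem_nhds _ (g := (1 : H))
    have h1 := eventually_ME hA (ρ.comp H.subtype) (hρ.comp continuous_subtype_val) k
    filter_upwards [h1] with g hg
    exact map_eq_one hg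
  · refine mem_smul_top _ _ fun a b => ?_
    have h2 : Matrix.GeneralLinearGroup.map (Ideal.Quotient.mk (maximalIdeal A ^ k)) (ρ g) =
        Matrix.GeneralLinearGroup.map (Ideal.Quotient.mk (maximalIdeal A ^ k)) 1 := by
      rw [map_one]
      exact hg
    exact ME_of_map_eq h2 a b

/-- the representation with values in matrices -/
def mat (ρ : G →* GL (Fin n) A) : G →* Matrix (Fin n) (Fin n) A :=
  (Units.coeHom _).comp ρ

/-- **The composition factor criterion.** -/
theorem unip {p : ℕ} (hp : p.Prime) (hA : IsAdic (maximalIdeal A))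
    (hfin : Finite (ResidueField A)) (hpA : (p : A) ∈ maximalIdeal A)
    (ρ : G →* GL (Fin n) A) (hρ : Continuous ρ) {Ur : Set H} (hUr : ∀ τ ∈ Ur, ρ (τ : G) = 1)
    {m t : ℕ} (U : ℕ → Submodule (ResidueField A) (Fin n → ResidueField A))
    (hU0 : U 0 = ⊥) (hUm : U m = ⊤)
    (hst : ∀ s g, ∀ v ∈ U s, (ρ g : Matrix (Fin n) (Fin n) A).map (residue A) *ᵥ v ∈ U s)
    (hun : ∀ s, s < m → ∀ h : H, ∀ v ∈ U (s + 1),
      (ρ h : Matrix (Fin n) (Fin n) A).map (residue A) *ᵥ v - v ∈ U s)
    (lam : ℕ → ℕ) (hlam : ∀ s, s < m → lam s < t)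
    (hsep : ∀ s s', s < m → s' < m → lam s' ≤ lam s → ∃ a : G →₀ ResidueField A,
      (∀ f : H →* Multiplicative (ZMod p), Adm p Ur f → ∀ g : H, ∀ v ∈ U (s + 1),
        ∑ σ ∈ a.support, (a σ *
          ((Multiplicative.toAdd (f (MulAut.conjNormal σ g))).val : ResidueField A)) •
            ((ρ σ : Matrix (Fin n) (Fin n) A).map (residue A) *ᵥ v) ∈ U s) ∧
      (∀ v ∈ U (s' + 1), v - ∑ σ ∈ a.support, a σ •
        ((ρ σ : Matrix (Fin n) (Fin n) A).map (residue A) *ᵥ v) ∈ U s')) :
    (II A H (mat ρ)) ^ t = ⊥ := by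
  have hflag : Flag (RR A (mat ρ)) (II A H (mat ρ)) (fun s => FL (U s)) m := by
    refine ⟨?_, RR_mul _, RR_II _, fun s => ?_, ?_, ?_, fun s hs => ?_⟩
    · have := mem_RR (A := A) (mat ρ) 1
      rwa [map_one] at this
    · refine RR_le fun g y hy j => ?_
      show (fun i => residue A (((ρ g : Matrix (Fin n) (Fin n) A) * y) i j)) ∈ U s
      rw [col_mul]
      exact hst s g _ (hy j)
    · show FL (U 0) ≤ _
      rw [hU0]
      exact FL_bot
    · show FL (U m) = _
      rw [hUm]
      exact FL_top
    · refine II_le fun g y hy j => ?_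
      show (fun i => residue A ((((ρ g : Matrix (Fin n) (Fin n) A) - 1) * y) i j)) ∈ U s
      have e1 : (fun i => residue A ((((ρ g : Matrix (Fin n) (Fin n) A) - 1) * y) i j)) =
          (ρ g : Matrix (Fin n) (Fin n) A).map (residue A) *ᵥ (fun i => residue A (y i j)) -
            fun i => residue A (y i j) := by
        rw [← col_mul]
        funext i
        rw [sub_mul, one_mul, Matrix.sub_apply, map_sub, Pi.sub_apply]
      rw [e1]
      exact hun s hs g _ (hy j)
  refine hflag.main hlam fun s s' hs hs' hl => ?_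
  obtain ⟨a, ha0, ha1⟩ := hsep s s' hs hs' hl
  obtain ⟨b, hb, hb'⟩ := exists_lift G a
  refine sp_of hp hfin hpA (mat ρ) (exists_open hA ρ hρ) (Ur := Ur) (fun τ hτ => ?_) b
    (fun f hf g y hy j => ?_) (fun y hy j => ?_)
  · show (ρ (τ : G) : Matrix (Fin n) (Fin n) A) = 1
    rw [hUr τ hτ, Units.val_one]
  · have h1 := col_sum ρ b.support
      (fun σ => b σ * ((Multiplicative.toAdd (f (MulAut.conjNormal σ g))).val : A)) y j
    have h2 := ha0 f hf g _ (hy j)
    show (fun i => residue A ((∑ σ ∈ b.support,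
      (b σ * ((Multiplicative.toAdd (f (MulAut.conjNormal σ g))).val : A)) •
        ((ρ σ : Matrix (Fin n) (Fin n) A) * y)) i j)) ∈ U s
    rw [h1]
    rw [hb]
    simpa only [map_mul, map_natCast, hb'] using h2
  · have h1 := col_sum ρ b.support (fun σ => b σ) y j
    have h2 := ha1 _ (hy j)
    show (fun i => residue A ((y - ∑ σ ∈ b.support,
      b σ • ((ρ σ : Matrix (Fin n) (Fin n) A) * y)) i j)) ∈ U s'
    have e1 : (fun i => residue A ((y - ∑ σ ∈ b.support,
      b σ • ((ρ σ : Matrix (Fin n) (Fin n) A) * y)) i j)) = (fun i => residue A (y i j)) -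
        fun i => residue A ((∑ σ ∈ b.support,
          b σ • ((ρ σ : Matrix (Fin n) (Fin n) A) * y)) i j) := by
      funext i
      rw [Matrix.sub_apply, map_sub, Pi.sub_apply]
    rw [e1, h1, hb]
    simpa only [hb'] using h2

end

end Pool.Agent.Y802.QV
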