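import Pool.Agent.Y802.GC.Sep

/-!
# Composition factor criterion: the algebra

`B` is a finite algebra over the Noetherian local ring `A`, `I` and `R` are `A`-submodules of `B`
(the augmentation ideal of the normal subgroup and the span of the big group). `fl` is a flag of
left submodules between the maximal ideal and the whole algebra.
-/

set_option autoImplicit false
set_option linter.unusedSectionVars false

namespace Pool.Agent.Y802.QV

open IsLocalRing

section

variable {A : Type} [CommRing A] [IsLocalRing A] [IsNoetherianRing A]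
  {B : Type} [Ring B] [Algebra A B]

omit [IsLocalRing A] [IsNoetherianRing A] in
theorem mulr {X Y Z : Submodule A B} (h : X ≤ Y) : Z * X ≤ Z * Y := mul_le_mul_right h Z

omit [IsLocalRing A] [IsNoetherianRing A] in
theorem mull {X Y Z : Submodule A B} (h : X ≤ Y) : X * Z ≤ Y * Z := mul_le_mul_left h Z

omit [IsLocalRing A] [IsNoetherianRing A] in
theorem smr (J : Ideal A) {X Y : Submodule A B} (h : X ≤ Y) : J • X ≤ J • Y :=
  Submodule.smul_mono le_rfl h

/-- the elements of `R` which map `Y` to `Y'` -/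
def Nn (R Y Y' : Submodule A B) : Submodule A B where
  carrier := {α | α ∈ R ∧ ∀ y ∈ Y, α * y ∈ Y'}
  zero_mem' := ⟨R.zero_mem, fun y _ => by rw [zero_mul]; exact Y'.zero_mem⟩
  add_mem' := fun {a b} ha hb => ⟨R.add_mem ha.1 hb.1, fun y hy => by
    rw [add_mul]; exact Y'.add_mem (ha.2 y hy) (hb.2 y hy)⟩
  smul_mem' := fun c a ha => ⟨R.smul_mem c ha.1, fun y hy => by
    rw [smul_mul_assoc]; exact Y'.smul_mem c (ha.2 y hy)⟩

theorem Nn_le (R Y Y' : Submodule A B) : Nn R Y Y' ≤ R := fun _ h => h.1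

theorem Nn_mul_le (R Y Y' : Submodule A B) : Nn R Y Y' * Y ≤ Y' := by
  rw [Submodule.mul_le]
  exact fun α hα y hy => hα.2 y hy

theorem R_mul_Nn {R Y Y' : Submodule A B} (hR : R * R ≤ R) (hY' : R * Y' ≤ Y') :
    R * Nn R Y Y' ≤ Nn R Y Y' := by
  rw [Submodule.mul_le]
  refine fun r hr α hα => ⟨hR (Submodule.mul_mem_mul hr hα.1), fun y hy => ?_⟩
  rw [mul_assoc]
  exact hY' (Submodule.mul_mem_mul hr (hα.2 y hy))

/-- the operators attached to a list of steps of the flag -/
def NL (R : Submodule A B) (fl : ℕ → Submodule A B) : List ℕ → Submodule A B → Submodule A B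
  | [], X => X
  | s :: L, X => NL R fl L (Nn R (fl (s + 1)) (fl s) * X)

variable {R I : Submodule A B} {fl : ℕ → Submodule A B}

theorem NL_mono (L : List ℕ) : ∀ {X Y : Submodule A B}, X ≤ Y → NL R fl L X ≤ NL R fl L Y := by
  induction L with
  | nil => exact fun h => h
  | cons s L ih => exact fun h => ih (mulr h)

theorem NL_sup (L : List ℕ) : ∀ (X Y : Submodule A B),
    NL R fl L (X ⊔ Y) = NL R fl L X ⊔ NL R fl L Y := by
  induction L with
  | nil => exact fun _ _ => rfl
  | cons s L ih =>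
    intro X Y
    show NL R fl L (_ * (X ⊔ Y)) = _
    rw [Submodule.mul_sup, ih]
    rfl

theorem NL_append (L L' : List ℕ) : ∀ X : Submodule A B,
    NL R fl (L ++ L') X = NL R fl L' (NL R fl L X) := by
  induction L with
  | nil => exact fun _ => rfl
  | cons s L ih => exact fun X => ih _

theorem mul_smul_le (J : Ideal A) (N X : Submodule A B) : N * (J • X) ≤ J • (N * X) := by
  rw [Submodule.mul_le]
  intro n hn x hx
  induction hx using Submodule.smul_induction_on' with
  | smul r hr x hx =>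
    rw [mul_smul_comm]
    exact Submodule.smul_mem_smul hr (Submodule.mul_mem_mul hn hx)
  | add x _ y _ hx hy =>
    rw [mul_add]
    exact Submodule.add_mem _ hx hy

theorem NL_smul (J : Ideal A) (L : List ℕ) : ∀ X : Submodule A B,
    NL R fl L (J • X) ≤ J • NL R fl L X := by
  induction L with
  | nil => exact fun _ => le_rfl
  | cons s L ih =>
    intro X
    exact (NL_mono L (mul_smul_le J _ X)).trans (ih _)

/-- the hypotheses on the flag -/
structure Flag (R I : Submodule A B) (fl : ℕ → Submodule A B) (m : ℕ) : Prop where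
  one_mem : (1 : B) ∈ R
  mul_R : R * R ≤ R
  mul_I : R * I ≤ I * R
  stab : ∀ s, R * fl s ≤ fl s
  bot : fl 0 ≤ maximalIdeal A • ⊤
  top : fl m = ⊤
  uni : ∀ s, s < m → I * fl (s + 1) ≤ fl s

variable {m : ℕ}

theorem Flag.nn (h : Flag R I fl m) (s : ℕ) {X : Submodule A B} :
    R * (Nn R (fl (s + 1)) (fl s) * X) ≤ Nn R (fl (s + 1)) (fl s) * X := by
  rw [← mul_assoc]
  exact mull (R_mul_Nn h.mul_R (h.stab s))

theorem nn_le (s : ℕ) {X : Submodule A B} (hX : R * X ≤ X) :
    Nn R (fl (s + 1)) (fl s) * X ≤ X :=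
  (mull (Nn_le _ _ _)).trans hX

theorem Flag.NL_le (h : Flag R I fl m) (L : List ℕ) : ∀ {X : Submodule A B}, R * X ≤ X →
    NL R fl L X ≤ X := by
  induction L with
  | nil => exact fun _ => le_rfl
  | cons s L ih => exact fun hX => (ih (h.nn s)).trans (nn_le s hX)

theorem Flag.stab_I (h : Flag R I fl m) {X : Submodule A B} (hX : R * X ≤ X) :
    R * (I * X) ≤ I * X := by
  rw [← mul_assoc]
  refine (mull h.mul_I).trans ?_
  rw [mul_assoc]
  exact mulr hX

theorem stab_sup {X Y : Submodule A B} (hX : R * X ≤ X) (hY : R * Y ≤ Y) :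
    R * (X ⊔ Y) ≤ X ⊔ Y := by
  rw [Submodule.mul_sup]
  exact sup_le_sup hX hY

theorem stab_smul (J : Ideal A) {X : Submodule A B} (hX : R * X ≤ X) :
    R * (J • X) ≤ J • X :=
  (mul_smul_le J R X).trans (smr J hX)

/-- the whole algebra, modulo the maximal ideal -/
theorem Flag.base (h : Flag R I fl m) : ∀ j, j ≤ m →
    ∃ L : List ℕ, (∀ s ∈ L, s < m) ∧ NL R fl L ⊤ ≤ fl (m - j) := by
  intro j
  induction j with
  | zero => exact fun _ => ⟨[], by simp, by rw [Nat.sub_zero, h.top]; exact le_top⟩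
  | succ j ih =>
    intro hj
    obtain ⟨L, hL, hL2⟩ := ih (by omega)
    refine ⟨L ++ [m - (j + 1)], ?_, ?_⟩
    · intro s hs
      rcases List.mem_append.1 hs with hs | hs
      · exact hL s hs
      · rw [List.mem_singleton.1 hs]
        omega
    · rw [NL_append]
      show Nn R (fl (m - (j + 1) + 1)) (fl (m - (j + 1))) * NL R fl L ⊤ ≤ _
      have e1 : m - (j + 1) + 1 = m - j := by omega
      rw [e1]
      exact (mulr hL2).trans (Nn_mul_le _ _ _)

theorem Flag.pow (h : Flag R I fl m) (c : ℕ) :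
    ∃ L : List ℕ, (∀ s ∈ L, s < m) ∧
      NL R fl L ⊤ ≤ maximalIdeal A ^ c • (⊤ : Submodule A B) := by
  obtain ⟨L0, h0, h0'⟩ := h.base m le_rfl
  rw [Nat.sub_self] at h0'
  induction c with
  | zero =>
    refine ⟨[], by simp, ?_⟩
    rw [pow_zero, Ideal.one_eq_top, Submodule.top_smul]
    exact le_top
  | succ c ih =>
    obtain ⟨L, hL, hL2⟩ := ih
    refine ⟨L ++ L0, ?_, ?_⟩
    · intro s hs
      rcases List.mem_append.1 hs with hs | hs
      · exact hL s hs
      · exact h0 s hs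
    · rw [NL_append, pow_succ, Submodule.mul_smul]
      refine (NL_mono L0 hL2).trans ((NL_smul _ L0 _).trans (smr _ ?_))
      exact h0'.trans h.bot

variable [Module.Finite A B]

/-- every submodule, modulo the maximal ideal (Artin-Rees) -/
theorem Flag.gen (h : Flag R I fl m) (Y : Submodule A B) (hY : R * Y ≤ Y) :
    ∃ L : List ℕ, (∀ s ∈ L, s < m) ∧ NL R fl L Y ≤ maximalIdeal A • Y := by
  obtain ⟨k, hk⟩ := Ideal.exists_pow_inf_eq_pow_smul (maximalIdeal A) Y
  obtain ⟨L, hL, hL2⟩ := h.pow (k + 1)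
  refine ⟨L, hL, ?_⟩
  have h1 : NL R fl L Y ≤ maximalIdeal A ^ (k + 1) • (⊤ : Submodule A B) ⊓ Y :=
    le_inf ((NL_mono L le_top).trans hL2) (h.NL_le L hY)
  rw [hk (k + 1) (by omega), Nat.add_sub_cancel_left, pow_one] at h1
  exact h1.trans (smr _ inf_le_right)

/-- separation -/
def Sp (R I : Submodule A B) (fl : ℕ → Submodule A B) (s s' : ℕ) : Prop :=
  ∃ α ∈ R, 1 - α ∈ Nn R (fl (s' + 1)) (fl s') ∧ ∀ Y : Submodule A B, R * Y ≤ Y →
    ∀ z ∈ I * Y, α * z ∈ I * (Nn R (fl (s + 1)) (fl s) * Y) ⊔ (I * (I * Y) ⊔ maximalIdeal A • (I * Y))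

theorem Flag.drop (h : Flag R I fl m) {lam : ℕ → ℕ}
    (hsp : ∀ s s', s < m → s' < m → lam s' ≤ lam s → Sp R I fl s s')
    {s : ℕ} (hs : s < m) {Y Z : Submodule A B} (hY : R * Y ≤ Y) (hZ : R * Z ≤ Z)
    (hYZ : I * (I * Y) ⊔ maximalIdeal A • (I * Y) ≤ Z) (L : List ℕ) :
    (∀ l ∈ L, l < m) → ∀ T : Submodule A B, R * T ≤ T → T ≤ I * Y ⊔ Z →
      NL R fl L T ≤ I * (Nn R (fl (s + 1)) (fl s) * Y) ⊔ Z →
      ∃ L' : List ℕ, (∀ l ∈ L', l < m ∧ lam s < lam l) ∧
        NL R fl L' T ≤ I * (Nn R (fl (s + 1)) (fl s) * Y) ⊔ Z := by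
  have hW' : R * (I * (Nn R (fl (s + 1)) (fl s) * Y) ⊔ Z) ≤
      I * (Nn R (fl (s + 1)) (fl s) * Y) ⊔ Z := stab_sup (h.stab_I (h.nn s)) hZ
  induction L with
  | nil => exact fun _ T _ _ hT => ⟨[], by simp, hT⟩
  | cons l L ih =>
    intro hL T hTR hT1 hT2
    have hl : l < m := hL l List.mem_cons_self
    have hL' : ∀ l ∈ L, l < m := fun x hx => hL x (List.mem_cons_of_mem _ hx)
    change NL R fl L (Nn R (fl (l + 1)) (fl l) * T) ≤ _ at hT2
    by_cases hc : lam l ≤ lam s
    · refine ih hL' T hTR hT1 ?_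
      obtain ⟨α, hα, hα1, hα2⟩ := hsp s l hs hl hc
      have h1 : T ≤ Nn R (fl (l + 1)) (fl l) * T ⊔ (I * (Nn R (fl (s + 1)) (fl s) * Y) ⊔ Z) := by
        intro t ht
        have e1 : t = (1 - α) * t + α * t := by rw [sub_mul, one_mul, sub_add_cancel]
        rw [e1]
        refine Submodule.add_mem_sup (Submodule.mul_mem_mul hα1 ht) ?_
        obtain ⟨u, hu, v, hv, huv⟩ := Submodule.mem_sup.1 (hT1 ht)
        rw [← huv, mul_add]
        refine Submodule.add_mem _ ?_ (Submodule.mem_sup_right (hZ (Submodule.mul_mem_mul hα hv)))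
        exact sup_le_sup_left hYZ _ (hα2 Y hY u hu)
      refine (NL_mono L h1).trans ?_
      rw [NL_sup]
      exact sup_le hT2 (h.NL_le L hW')
    · obtain ⟨L', h1, h2⟩ := ih hL' (Nn R (fl (l + 1)) (fl l) * T) (h.nn l)
        ((nn_le l hTR).trans hT1) hT2
      refine ⟨l :: L', ?_, h2⟩
      intro x hx
      rcases List.mem_cons.1 hx with rfl | hx
      · exact ⟨hl, by omega⟩
      · exact h1 x hx

theorem Flag.step (h : Flag R I fl m) {lam : ℕ → ℕ}
    (hsp : ∀ s s', s < m → s' < m → lam s' ≤ lam s → Sp R I fl s s') {i : ℕ}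
    {Z : Submodule A B} (hZ : R * Z ≤ Z) (L : List ℕ) :
    (∀ l ∈ L, l < m ∧ i ≤ lam l) → ∀ Y : Submodule A B, R * Y ≤ Y →
      I * (I * Y) ⊔ maximalIdeal A • (I * Y) ≤ Z → I * NL R fl L Y ≤ Z →
      ∃ L' : List ℕ, (∀ l ∈ L', l < m ∧ i + 1 ≤ lam l) ∧ NL R fl L' (I * Y ⊔ Z) ≤ Z := by
  induction L with
  | nil => exact fun _ Y _ _ hYL => ⟨[], by simp, sup_le hYL le_rfl⟩
  | cons s L ih =>
    intro hL Y hY hYZ hYL
    obtain ⟨hs, hsi⟩ := hL s List.mem_cons_self
    set Y1 := Nn R (fl (s + 1)) (fl s) * Y with hY1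
    have hle : Y1 ≤ Y := nn_le s hY
    have hIle : I * Y1 ≤ I * Y := mulr hle
    obtain ⟨L1, hL1, hL1'⟩ := ih (fun x hx => hL x (List.mem_cons_of_mem _ hx)) Y1 (h.nn s)
      ((sup_le_sup (mulr hIle) (smr _ hIle)).trans
        hYZ) hYL
    obtain ⟨L0, hL0, hL0'⟩ := h.gen (I * Y) (h.stab_I hY)
    have h1 : NL R fl L0 (I * Y ⊔ Z) ≤ I * Y1 ⊔ Z := by
      rw [NL_sup]
      refine (sup_le (hL0'.trans ?_) (h.NL_le L0 hZ)).trans le_sup_right
      exact le_sup_right.trans hYZ
    obtain ⟨L2, hL2, hL2'⟩ := h.drop hsp hs hY hZ hYZ L0 hL0 (I * Y ⊔ Z)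
      (stab_sup (h.stab_I hY) hZ) le_rfl h1
    refine ⟨L2 ++ L1, ?_, ?_⟩
    · intro x hx
      rcases List.mem_append.1 hx with hx | hx
      · exact ⟨(hL2 x hx).1, by have := (hL2 x hx).2; omega⟩
      · exact hL1 x hx
    · rw [NL_append]
      exact (NL_mono L1 hL2').trans hL1'

theorem Flag.main_aux (h : Flag R I fl m) {lam : ℕ → ℕ}
    (hsp : ∀ s s', s < m → s' < m → lam s' ≤ lam s → Sp R I fl s s') (i : ℕ) :
    R * (I ^ i * ⊤) ≤ I ^ i * ⊤ ∧
    ∃ L : List ℕ, (∀ l ∈ L, l < m ∧ i ≤ lam l) ∧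
      NL R fl L (I ^ i * ⊤) ≤ I ^ (i + 1) * ⊤ ⊔ maximalIdeal A • (I ^ i * ⊤) := by
  induction i with
  | zero =>
    have hR : R * (I ^ 0 * ⊤) ≤ I ^ 0 * ⊤ := by
      rw [pow_zero, one_mul]
      exact le_top
    refine ⟨hR, ?_⟩
    obtain ⟨L, hL, hL'⟩ := h.gen _ hR
    exact ⟨L, fun l hl => ⟨hL l hl, Nat.zero_le _⟩, hL'.trans le_sup_right⟩
  | succ i ih =>
    obtain ⟨hR, L, hL, hL'⟩ := ih
    have e1 : ∀ j, I ^ (j + 1) * (⊤ : Submodule A B) = I * (I ^ j * ⊤) := by
      intro j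
      rw [pow_succ', mul_assoc]
    have hR' : R * (I ^ (i + 1) * ⊤) ≤ I ^ (i + 1) * ⊤ := by
      rw [e1]
      exact h.stab_I hR
    refine ⟨hR', ?_⟩
    obtain ⟨L2, hL2, hL2'⟩ := h.step hsp (i := i)
      (Z := I ^ (i + 1 + 1) * ⊤ ⊔ maximalIdeal A • (I ^ (i + 1) * ⊤))
      (stab_sup (by rw [e1 (i + 1)]; exact h.stab_I hR') (stab_smul _ hR')) L hL (I ^ i * ⊤) hR
      (by rw [← e1, ← e1]) (by
        refine (mulr hL').trans ?_
        rw [Submodule.mul_sup, ← e1]
        refine sup_le_sup le_rfl ((mul_smul_le _ _ _).trans ?_)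
        rw [← e1])
    refine ⟨L2, hL2, (NL_mono L2 ?_).trans hL2'⟩
    rw [e1]
    exact le_sup_left

/-- **The algebraic criterion.** -/
theorem Flag.main (h : Flag R I fl m) {lam : ℕ → ℕ} {t : ℕ} (hlam : ∀ s, s < m → lam s < t)
    (hsp : ∀ s s', s < m → s' < m → lam s' ≤ lam s → Sp R I fl s s') : I ^ t = ⊥ := by
  obtain ⟨hR, L, hL, hL'⟩ := h.main_aux hsp t
  have hL0 : L = [] := by
    cases L with
    | nil => rfl
    | cons s L =>
      obtain ⟨h1, h2⟩ := hL s List.mem_cons_self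
      have := hlam s h1
      omega
  subst hL0
  change I ^ t * ⊤ ≤ _ at hL'
  have h1 : I ^ t * ⊤ ≤ I ^ (t + 1) * (⊤ : Submodule A B) :=
    Submodule.le_of_le_smul_of_le_jacobson_bot (IsNoetherian.noetherian _)
      (IsLocalRing.maximalIdeal_le_jacobson _) hL'
  have h2 : ∀ j, I ^ t * ⊤ ≤ I ^ (t + j) * (⊤ : Submodule A B) := by
    intro j
    induction j with
    | zero => exact le_rfl
    | succ j ih =>
      have e1 : I ^ (t + (j + 1)) * (⊤ : Submodule A B) = I ^ j * (I ^ (t + 1) * ⊤) := by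
        rw [← mul_assoc, ← pow_add]
        congr 2
        omega
      have e2 : I ^ (t + j) * (⊤ : Submodule A B) = I ^ j * (I ^ t * ⊤) := by
        rw [← mul_assoc, ← pow_add]
        congr 2
        omega
      refine ih.trans ?_
      rw [e1, e2]
      exact mulr h1
  -- nilpotency modulo the maximal ideal
  have h3 : ∀ j, j ≤ m → I ^ j * ⊤ ≤ fl (m - j) := by
    intro j
    induction j with
    | zero => exact fun _ => by rw [Nat.sub_zero, h.top]; exact le_top
    | succ j ih =>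
      intro hj
      rw [pow_succ', mul_assoc]
      refine (mulr (ih (by omega))).trans ?_
      have e1 : m - j = m - (j + 1) + 1 := by omega
      rw [e1]
      exact h.uni _ (by omega)
  have h4 : I ^ m * ⊤ ≤ maximalIdeal A • (⊤ : Submodule A B) := by
    have := h3 m le_rfl
    rw [Nat.sub_self] at this
    exact this.trans h.bot
  have h5 : ∀ c : ℕ, I ^ (m * c) * ⊤ ≤ maximalIdeal A ^ c • (⊤ : Submodule A B) := by
    intro c
    induction c with
    | zero =>
      rw [pow_zero, Ideal.one_eq_top, Submodule.top_smul]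
      exact le_top
    | succ c ih =>
      have e1 : I ^ (m * (c + 1)) * (⊤ : Submodule A B) = I ^ (m * c) * (I ^ m * ⊤) := by
        rw [← mul_assoc, ← pow_add]
        congr 2
      rw [e1, pow_succ', Submodule.mul_smul]
      exact (mulr h4).trans ((mul_smul_le _ _ _).trans
        (smr _ ih))
  have h6 : ∀ x ∈ I ^ t, x = 0 := by
    intro x hx
    have h7 : x ∈ I ^ t * (⊤ : Submodule A B) := by
      have := Submodule.mul_mem_mul hx (Submodule.mem_top (x := (1 : B)) (R := A))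
      rwa [mul_one] at this
    have h8 := Ideal.iInf_pow_smul_eq_bot_of_isLocalRing (M := B) (maximalIdeal A)
      (Ideal.IsPrime.ne_top inferInstance)
    have h9 : x ∈ (⨅ i : ℕ, (maximalIdeal A ^ i) • (⊤ : Submodule A B)) := by
      rw [Submodule.mem_iInf]
      intro c
      rcases Nat.eq_zero_or_pos m with hm | hm
      · -- then everything is in the maximal ideal
        have : (⊤ : Submodule A B) ≤ maximalIdeal A • ⊤ := by
          have := h.bot
          rw [← hm, h.top] at this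
          exact this
        have h10 : (⊤ : Submodule A B) ≤ ⊥ :=
          Submodule.le_of_le_smul_of_le_jacobson_bot (IsNoetherian.noetherian _)
            (IsLocalRing.maximalIdeal_le_jacobson _) (this.trans le_sup_right)
        have h11 : x ∈ (⊥ : Submodule A B) := h10 trivial
        rw [(Submodule.mem_bot A).1 h11]
        exact Submodule.zero_mem _
      · have h10 : t ≤ t + (m * (t + c)) := Nat.le_add_right _ _
        have h11 := h2 (m * c) h7
        refine h5 c ?_
        have e1 : I ^ (t + m * c) * (⊤ : Submodule A B) ≤ I ^ (m * c) * ⊤ := by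
          rw [add_comm, pow_add, mul_assoc]
          exact mulr le_top
        exact e1 h11
    rw [h8] at h9
    exact (Submodule.mem_bot A).1 h9
  rw [eq_bot_iff]
  exact fun x hx => (Submodule.mem_bot A).2 (h6 x hx)

end

end Pool.Agent.Y802.QV
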