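import Pool.Agent.Y802.QV.Alg
import Pool.Agent.W569.FM.MainC

/-!
# Composition factor criterion: from characters to the separation
-/

set_option autoImplicit false
set_option linter.unusedSectionVars false

namespace Pool.Agent.Y802.QV

open IsLocalRing Pool.Agent.Y802.GC

section

variable {A : Type} [CommRing A] [IsLocalRing A] [IsNoetherianRing A] {p : ℕ}
  {B : Type} [Ring B] [Algebra A B]
  {G : Type} [Group G] [TopologicalSpace G] [IsTopologicalGroup G] {H : Subgroup G} [hH : H.Normal]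

/-- the span of the big group -/
def RR (A : Type) [CommRing A] {B : Type} [Ring B] [Algebra A B] {G : Type} [Group G]
    (ρ : G →* B) : Submodule A B := Submodule.span A (Set.range ρ)

/-- the augmentation ideal of the normal subgroup -/
def II (A : Type) [CommRing A] {B : Type} [Ring B] [Algebra A B] {G : Type} [Group G]
    (H : Subgroup G) (ρ : G →* B) : Submodule A B :=
  Submodule.span A (Set.range fun h : H => ρ h - 1)

theorem mem_RR (ρ : G →* B) (g : G) : ρ g ∈ RR A ρ := Submodule.subset_span ⟨g, rfl⟩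

theorem mem_II (ρ : G →* B) (g : H) : ρ g - 1 ∈ II A H ρ := Submodule.subset_span ⟨g, rfl⟩

theorem RR_mul (ρ : G →* B) : RR A ρ * RR A ρ ≤ RR A ρ := by
  rw [RR, Submodule.span_mul_span, Submodule.span_le]
  rintro _ ⟨_, ⟨g, rfl⟩, _, ⟨h, rfl⟩, rfl⟩
  show ρ g * ρ h ∈ RR A ρ
  rw [← map_mul]
  exact mem_RR ρ _

theorem conj_eq (ρ : G →* B) (σ : G) (h : H) :
    ρ σ * (ρ h - 1) = (ρ (MulAut.conjNormal σ h) - 1) * ρ σ := by
  rw [MulAut.conjNormal_apply, map_mul, map_mul, mul_sub, sub_mul, mul_one, one_mul,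
    mul_assoc (ρ σ * ρ (h : G)), ← map_mul ρ σ⁻¹ σ, inv_mul_cancel, map_one, mul_one]

theorem RR_II (ρ : G →* B) : RR A ρ * II A H ρ ≤ II A H ρ * RR A ρ := by
  conv_lhs => rw [RR, II, Submodule.span_mul_span]
  rw [Submodule.span_le]
  rintro _ ⟨_, ⟨g, rfl⟩, _, ⟨h, rfl⟩, rfl⟩
  show ρ g * (ρ h - 1) ∈ II A H ρ * RR A ρ
  rw [conj_eq]
  exact Submodule.mul_mem_mul (mem_II ρ _) (mem_RR ρ _)

theorem RR_le {ρ : G →* B} {Y Y' : Submodule A B} (h : ∀ g, ∀ y ∈ Y, ρ g * y ∈ Y') :
    RR A ρ * Y ≤ Y' := by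
  rw [Submodule.mul_le]
  intro r hr y hy
  rw [RR] at hr
  induction hr using Submodule.span_induction with
  | mem x hx =>
    obtain ⟨g, rfl⟩ := hx
    exact h g y hy
  | zero => rw [zero_mul]; exact Submodule.zero_mem _
  | add a b _ _ ha hb => rw [add_mul]; exact Submodule.add_mem _ ha hb
  | smul a x _ hx => rw [smul_mul_assoc]; exact Submodule.smul_mem _ _ hx

theorem II_le {ρ : G →* B} {Y Y' : Submodule A B} (h : ∀ g : H, ∀ y ∈ Y, (ρ g - 1) * y ∈ Y') :
    II A H ρ * Y ≤ Y' := by
  rw [Submodule.mul_le]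
  intro r hr y hy
  rw [II] at hr
  induction hr using Submodule.span_induction with
  | mem x hx =>
    obtain ⟨g, rfl⟩ := hx
    exact h g y hy
  | zero => rw [zero_mul]; exact Submodule.zero_mem _
  | add a b _ _ ha hb => rw [add_mul]; exact Submodule.add_mem _ ha hb
  | smul a x _ hx => rw [smul_mul_assoc]; exact Submodule.smul_mem _ _ hx

/-- the operator attached to an element of the group algebra -/
noncomputable def op (ρ : G →* B) (a : G →₀ A) : B := ∑ σ ∈ a.support, a σ • ρ σ

theorem op_mem (ρ : G →* B) (a : G →₀ A) : op ρ a ∈ RR A ρ :=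
  Submodule.sum_mem _ fun σ _ => Submodule.smul_mem _ _ (mem_RR ρ σ)

variable [Module.Finite A B]

/-- **Separation from characters** -/
theorem sp_of (hp : p.Prime) (hfin : Finite (ResidueField A)) (hpA : (p : A) ∈ maximalIdeal A)
    (ρ : G →* B) (hU : ∀ k : ℕ, ∃ U : Subgroup H, IsOpen (U : Set H) ∧
      ∀ g ∈ U, ρ (g : G) - 1 ∈ (maximalIdeal A ^ k) • (⊤ : Submodule A B))
    {Ur : Set H} (hUr : ∀ τ ∈ Ur, ρ (τ : G) = 1) {fl : ℕ → Submodule A B} {s s' : ℕ}
    (a : G →₀ A)
    (h0 : ∀ f : H →* Multiplicative (ZMod p), Adm p Ur f → ∀ g : H, ∀ y ∈ fl (s + 1),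
      ∑ σ ∈ a.support, (a σ * ((Multiplicative.toAdd (f (MulAut.conjNormal σ g))).val : A)) •
        (ρ σ * y) ∈ fl s)
    (h1 : ∀ y ∈ fl (s' + 1), y - ∑ σ ∈ a.support, a σ • (ρ σ * y) ∈ fl s') :
    Sp (RR A ρ) (II A H ρ) fl s s' := by
  set R := RR A ρ with hR
  set I := II A H ρ with hI
  refine ⟨op ρ a, op_mem ρ a, ⟨?_, ?_⟩, ?_⟩
  · refine Submodule.sub_mem _ ?_ (op_mem ρ a)
    have := mem_RR (A := A) ρ 1
    rwa [map_one] at this
  · intro y hy
    rw [sub_mul, one_mul, op, Finset.sum_mul]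
    simp only [smul_mul_assoc]
    exact h1 y hy
  intro Y hY z hz
  set W := I * (Nn R (fl (s + 1)) (fl s) * Y) ⊔ (I * (I * Y) ⊔ maximalIdeal A • (I * Y)) with hW
  -- the generating case
  have hgen : ∀ h : H, ∀ v ∈ Y, op ρ a * ((ρ h - 1) * v) ∈ W := by
    intro h v hv
    refine Pool.Agent.W975.UF.krull _ _ fun k => ?_
    have hXm : ∀ g h : H, ρ ((g * h : H) : G) - 1 =
        (ρ g - 1) + (ρ h - 1) + (ρ g - 1) * (ρ h - 1) := by
      intro g h
      rw [Subgroup.coe_mul, map_mul]
      noncomm_ring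
    obtain ⟨r, f, β, hf, hβ, hap⟩ := approx (A := A) (p := p) hp hfin
      (X := fun g : H => ρ g - 1) hXm hU (Ur := Ur) (fun τ hτ => by
        show ρ τ - 1 = 0
        rw [hUr τ hτ, sub_self]) k
    -- the error term
    have herr : ∀ e ∈ PP p k (Submodule.span A (Set.range fun g : H => ρ g - 1)) 1, ∀ y ∈ Y,
        e * y ∈ W ⊔ (maximalIdeal A ^ k) • (⊤ : Submodule A B) := by
      intro e he y hy
      obtain ⟨u, hu, w, hw, rfl⟩ := Submodule.mem_sup.1 he
      obtain ⟨v', hv', _, ⟨x, hx, rfl⟩, rfl⟩ := Submodule.mem_sup.1 hu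
      rw [add_mul, add_mul]
      refine Submodule.add_mem _ (Submodule.add_mem _ ?_ ?_) ?_
      · refine Submodule.mem_sup_left (Submodule.mem_sup_right (Submodule.mem_sup_left ?_))
        rw [← mul_assoc]
        refine Submodule.mul_mem_mul ?_ hy
        rw [pow_succ, pow_one] at hv'
        exact hv'
      · refine Submodule.mem_sup_left (Submodule.mem_sup_right (Submodule.mem_sup_right ?_))
        rw [LinearMap.lsmul_apply, smul_mul_assoc]
        refine Submodule.smul_mem_smul hpA (Submodule.mul_mem_mul ?_ hy)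
        rw [pow_one] at hx
        exact hx
      · exact Submodule.mem_sup_right (smulTop_mul_right hw y)
    have hρY : ∀ σ, ρ σ * v ∈ Y := fun σ => hY (Submodule.mul_mem_mul (mem_RR ρ σ) hv)
    -- the operators `b j`
    have hb : ∀ j, ∑ σ ∈ a.support,
        (a σ * ((Multiplicative.toAdd (f j (MulAut.conjNormal σ h))).val : A)) • ρ σ ∈
          Nn R (fl (s + 1)) (fl s) := by
      intro j
      refine ⟨Submodule.sum_mem _ fun σ _ => Submodule.smul_mem _ _ (mem_RR ρ σ),
        fun y hy => ?_⟩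
      rw [Finset.sum_mul]
      simp only [smul_mul_assoc]
      exact h0 (f j) (hf j) h y hy
    have key : op ρ a * ((ρ h - 1) * v) =
        (∑ j, β j * ((∑ σ ∈ a.support,
          (a σ * ((Multiplicative.toAdd (f j (MulAut.conjNormal σ h))).val : A)) • ρ σ) * v)) +
        ∑ σ ∈ a.support, a σ • ((ρ (MulAut.conjNormal σ h) - 1 -
          ∑ j, ((Multiplicative.toAdd (f j (MulAut.conjNormal σ h))).val : ℤ) • β j) *
            (ρ σ * v)) := by
      have e1 : op ρ a * ((ρ h - 1) * v) =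
          ∑ σ ∈ a.support, a σ • ((ρ (MulAut.conjNormal σ h) - 1) * (ρ σ * v)) := by
        rw [op, Finset.sum_mul]
        refine Finset.sum_congr rfl fun σ _ => ?_
        rw [smul_mul_assoc, ← mul_assoc, conj_eq, mul_assoc]
      rw [e1]
      have e2 : (∑ j, β j * ((∑ σ ∈ a.support,
          (a σ * ((Multiplicative.toAdd (f j (MulAut.conjNormal σ h))).val : A)) • ρ σ) * v)) =
          ∑ σ ∈ a.support, a σ • ((∑ j,
            ((Multiplicative.toAdd (f j (MulAut.conjNormal σ h))).val : ℤ) • β j) *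
              (ρ σ * v)) := by
        simp only [Finset.sum_mul, Finset.mul_sum, Finset.smul_sum]
        rw [Finset.sum_comm]
        refine Finset.sum_congr rfl fun σ _ => Finset.sum_congr rfl fun j _ => ?_
        rw [smul_mul_assoc, mul_smul_comm, mul_smul, smul_mul_assoc, natCast_zsmul,
          ← Nat.cast_smul_eq_nsmul A]
      rw [e2, ← Finset.sum_add_distrib]
      refine Finset.sum_congr rfl fun σ _ => ?_
      rw [← smul_add, ← add_mul, add_sub_cancel]
    rw [key]
    refine Submodule.add_mem _ ?_ ?_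
    · refine Submodule.mem_sup_left (Submodule.mem_sup_left ?_)
      exact Submodule.sum_mem _ fun j _ =>
        Submodule.mul_mem_mul (hβ j) (Submodule.mul_mem_mul (hb j) hv)
    · exact Submodule.sum_mem _ fun σ _ => Submodule.smul_mem _ _ (herr _ (hap _) _ (hρY σ))
  induction hz using Submodule.mul_induction_on' with
  | mem_mul_mem x hx v hv =>
    rw [hI, II] at hx
    induction hx using Submodule.span_induction with
    | mem x hx =>
      obtain ⟨h, rfl⟩ := hx
      exact hgen h v hv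
    | zero => rw [zero_mul, mul_zero]; exact Submodule.zero_mem _
    | add x y _ _ hx hy => rw [add_mul, mul_add]; exact Submodule.add_mem _ hx hy
    | smul c x _ hx => rw [smul_mul_assoc, mul_smul_comm]; exact Submodule.smul_mem _ _ hx
  | add x _ y _ hx hy => rw [mul_add]; exact Submodule.add_mem _ hx hy

end

end Pool.Agent.Y802.QV
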